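import Pool.Agent.Lib.MP_d3d358_ag.Chow.Stmt
import Pool.Agent.Lib.MP_d3d358_ag.Cw.Defs

/-! The short form of the statement implies the working form. -/

set_option autoImplicit false

namespace Pool.Agent.Lib.MP_d3d358_ag.Chow

open CategoryTheory AlgebraicGeometry

variable {V W : Scheme.{0}} {X Y Z X' Y' : Sch}

theorem Pull.cw {f : V ⟶ W} {a : Cyc W} {b : Cyc V} (h : Pull f a b) : Cw.Pull f a b := fun v =>
  ⟨fun h' => (h v).trans (if_pos h'),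
    fun ⟨v', h1, h2, h3⟩ => (h v).trans (if_neg fun h' => h3 (h' v' h1 h2))⟩

theorem Img.cw {f : V ⟶ W} {c : Cyc W} : Img f c → Cw.Img f c := fun ⟨a, h, h'⟩ =>
  ⟨a, fun v => ⟨fun e => (h v).trans (if_pos e), fun e => (h v).trans (if_neg e)⟩, h'⟩

theorem Comp.cw {a : Cor X Y} {b : Cor Y Z} {c : Cor X Z} : Comp a b c → Cw.Comp a b c :=
  fun ⟨a', b', m, c', h1, h2, h3, h4, h5⟩ => ⟨a', b', m, c', h1.cw, h2.cw, h3, h4, h5⟩

theorem Tens.cw {a : Cor X Y} {b : Cor X' Y'} {c : Cor (pr X X') (pr Y Y')} :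
    Tens a b c → Cw.Tens a b c := fun ⟨a', b', h1, h2, h3⟩ => ⟨a', b', h1.cw, h2.cw, h3⟩

theorem FrobIso.cw {d : ℕ} {Γ : Cor X Y} : FrobIso d Γ → Cw.FrobIso d Γ :=
  fun ⟨h0, Γt, ΔX, ΔY, δX, δY, T, L, h1, h2, h3, h4, h5, h6, h7, h8, h9, h10⟩ =>
    ⟨h0, Γt, ΔX, ΔY, δX, δY, T, L, h1, h2.cw, h3.cw, h4.cw, h5.cw, h6.cw, h7.cw, h8.cw, h9.cw,
      h10.cw⟩

end Pool.Agent.Lib.MP_d3d358_ag.Chow
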