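import Pool.Agent.Lib.MP_d3d358_ag.Chow.Stmt2
import Pool.Agent.Lib.MP_d3d358_ag.Mv.Mov

/-! By the moving lemma the statement implies the working form. -/

set_option autoImplicit false

namespace Pool.Agent.Lib.MP_d3d358_ag.Chw

open CategoryTheory AlgebraicGeometry MonoidalCategory

variable {V W : Scheme.{0}} {X Y Z X' Y' : Sch}

theorem Pull.cw {f : V ⟶ W} {a : Cyc W} {b : Cyc V} (h : Pull f a b) : Cw.Pull f a b := fun v =>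
  ⟨fun h' => (h v).trans (if_pos h'),
    fun ⟨v', h1, h2, h3⟩ => (h v).trans (if_neg fun h' => h3 (h' v' h1 h2))⟩

theorem Img.cw {f : V ⟶ W} {c : Cyc W} : Img f c → Cw.Img f c := fun ⟨a, h, h'⟩ =>
  ⟨a, fun v => ⟨fun e => (h v).trans (if_pos e), fun e => (h v).trans (if_neg e)⟩, h'⟩

theorem Mul.cw (hW : Mv.Mov W) {a b c : Cyc W} (h : Mul a b c) : Cw.Mul a b c :=
  have ⟨a', c', h1, h2⟩ := hW a b
  ⟨a', b, c', h1, Mv.rat_refl b, h2, h a' b c' h1 (Mv.rat_refl b) h2⟩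

theorem Comp.cw (hX : Mv.Ok X) (hY : Mv.Ok Y) (hZ : Mv.Ok Z) {a : Cor X Y} {b : Cor Y Z}
    {c : Cor X Z} : Comp a b c → Cw.Comp a b c := fun ⟨a', b', m, c', h1, h2, h3, h4, h5⟩ =>
  ⟨a', b', m, c', h1.cw, h2.cw, h3.cw (hX.tensor (hY.tensor hZ)).mov, h4, h5⟩

theorem Tens.cw (hX : Mv.Ok X) (hY : Mv.Ok Y) {a b : Cor X Y} {c : Cor (pr X X) (pr Y Y)} :
    Tens a b c → Cw.Tens a b c := fun ⟨a', b', h1, h2, h3⟩ =>
  ⟨a', b', h1.cw, h2.cw, h3.cw ((hX.tensor hX).tensor (hY.tensor hY)).mov⟩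

theorem FrobIso.cw (hX : Mv.Ok X) (hY : Mv.Ok Y) {d : ℕ} {Γ : Cor X Y} :
    FrobIso d Γ → Cw.FrobIso d Γ :=
  fun ⟨h0, Γt, ΔX, ΔY, δX, δY, T, L, h1, h2, h3, h4, h5, h6, h7, h8, h9, h10⟩ =>
    ⟨h0, Γt, ΔX, ΔY, δX, δY, T, L, h1, h2.cw, h3.cw, h4.cw, h5.cw, h6.cw hX hY hX, h7.cw hY hX hY,
      h8.cw hX hY, h9.cw (hX.tensor hX) hX hY, h10.cw (hX.tensor hX) (hY.tensor hY) hY⟩

end Pool.Agent.Lib.MP_d3d358_ag.Chw
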