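import Pool.Agent.Lib.MP_d3d358_ag.Chow.Br
import Pool.Agent.Lib.MP_d3d358_ag.Cw.Main
import Pool.Agent.Lib.MP_d3d358_ag.G.Main

/-! The assembly. -/

set_option autoImplicit false

namespace Pool.Agent.Lib.MP_d3d358_ag.Chow

open CategoryTheory
open Pool.Agent.Lib.MP_d3d358_ag.G Pool.Agent.Lib.MP_d3d358_ag.Var
open Pool.Agent.Lib.MP_9ff3e7_ag.F Pool.Agent.Lib.MP_cd184e_ag.B

theorem chow_main :
    ∃ (S S' : Type) (_ : CommRing S) (_ : CommRing S') (_ : IsDomain S) (_ : IsDomain S')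
      (_ : Algebra ℂ S) (_ : Algebra ℂ S') (𝒜 : ℕ → Submodule ℂ S) (ℬ : ℕ → Submodule ℂ S')
      (_ : GradedAlgebra 𝒜) (_ : GradedAlgebra ℬ) (σ : Form (Fn 𝒜)) (τ : Form (Fn ℬ)),
      HK 𝒜 σ ∧ HK ℬ τ ∧ DerEq (strMap 𝒜) (strMap ℬ) ∧
      ¬∃ Γ : Cor (Over.mk (strMap 𝒜)) (Over.mk (strMap ℬ)), FrobIso 4 Γ := by
  obtain ⟨z, A, B, hz, hD, hP, hQ⟩ := exists_pair
  obtain ⟨a, hA⟩ := exists_good (A := A)
  obtain ⟨b, hB⟩ := exists_good (A := B)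
  obtain ⟨σ, h1, -⟩ := hk hA
  obtain ⟨τ, h3, -⟩ := hk hB
  exact ⟨_, _, _, _, _, _, _, _, grade (Var.X hA), grade (Var.X hB), _, _, σ, τ, h1, h3,
    derEq_of_triEq _ _ (triEq_X hA hB hD),
    fun ⟨Γ, h⟩ => Cw.no_chow hA hB hz hD hP hQ ⟨Γ, h.cw⟩⟩

end Pool.Agent.Lib.MP_d3d358_ag.Chow
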