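import Mathlib

/-! Cycles modulo rational equivalence, correspondences, and isomorphisms of Chow motives as
Frobenius algebra objects. -/

set_option autoImplicit false

namespace Pool.Agent.Lib.MP_d3d358_ag.Chw

open CategoryTheory AlgebraicGeometry MonoidalCategory CartesianMonoidalCategory Order

noncomputable section

/-- cycles with rational coefficients; a point stands for its closure -/
abbrev Cyc (W : Scheme.{0}) : Type := AlgebraicCycle W ℚ

variable {V W : Scheme.{0}}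

/-- `b` is the push forward of `a`; `height` is the dimension of the closure of a point -/
def Push (f : V ⟶ W) (a : Cyc V) (b : Cyc W) : Prop :=
  ∃ _ : QuasiCompact f, b = AlgebraicCycle.map f height height a

open Classical in
/-- `b` is the pull back of `a` along a smooth map: a point goes to the generic points of its
fibre -/
def Pull (f : V ⟶ W) (a : Cyc W) (b : Cyc V) : Prop :=
  ∀ v, b v = if ∀ v', f v' = f v → v' ⤳ v → v' = v then a (f v) else 0

open Classical in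
/-- `c` is the push forward of the fundamental cycle of the reduced scheme `V` -/
def Img (f : V ⟶ W) (c : Cyc W) : Prop :=
  ∃ a : Cyc V, (∀ v, a v = if IsMax v then 1 else 0) ∧ Push f a c

/-- `a` is the divisor of a rational function on a subvariety -/
def Prin (a : Cyc W) : Prop :=
  ∃ (Z : Scheme.{0}) (_ : IsIntegral Z) (_ : IsLocallyNoetherian Z) (ι : Z ⟶ W)
    (_ : IsClosedImmersion ι) (f : Z.functionField) (d : Cyc Z),
    f ≠ 0 ∧ (∀ z, d z = Scheme.ord f z) ∧ Push ι d a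

/-- rational equivalence of cycles with rational coefficients -/
def Rat (a b : Cyc W) : Prop := ∃ n : ℕ, n ≠ 0 ∧ n • (a - b) ∈ AddSubgroup.closure {c | Prin c}

/-- `z` is a component of the intersection of `x` and `y` -/
def Meet (x y z : W) : Prop := x ⤳ z ∧ y ⤳ z ∧ ∀ z', x ⤳ z' → y ⤳ z' → z' ⤳ z → z' = z

/-- the ideal of `x` in the local ring at `z` -/
def idl {x z : W} (h : x ⤳ z) : Ideal (W.presheaf.stalk z) :=
  (IsLocalRing.maximalIdeal _).comap (W.presheaf.stalkSpecializes h).hom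

/-- `x` and `y` are cut out at `z` by complementary parts of a regular system of parameters -/
def Transv {x y z : W} (hx : x ⤳ z) (hy : y ⤳ z) : Prop :=
  ∃ s t : Finset (W.presheaf.stalk z), idl hx = Ideal.span s ∧ idl hy = Ideal.span t ∧
    IsLocalRing.maximalIdeal _ = idl hx ⊔ idl hy ∧
    ringKrullDim (W.presheaf.stalk z) = (s.card + t.card : ℕ)

open Classical in
/-- `a` and `b` are generically transverse and `c` is their intersection -/
def Cap (a b c : Cyc W) : Prop :=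
  (∀ x y z, a x ≠ 0 → b y ≠ 0 → ∀ h : Meet x y z, Transv h.1 h.2.1) ∧
    ∀ z, c z = ∑ᶠ x, ∑ᶠ y, if Meet x y z then a x * b y else 0

/-- the class of `c` is the product of the classes of `a` and `b`: it is the class of the
intersection of any two generically transverse representatives -/
def Mul (a b c : Cyc W) : Prop := ∀ a' b' c', Rat a a' → Rat b b' → Cap a' b' c' → Rat c c'

/-- schemes over the complex numbers -/
abbrev Sch : Type 1 := Over (Spec (.of ℂ))

/-- the product over the complex numbers -/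
abbrev pr (X Y : Sch) : Sch := X ⊗ Y

/-- cycles on the product -/
abbrev Cor (X Y : Sch) : Type := Cyc (pr X Y).left

variable (X Y Z X' Y' : Sch)

/-- `(x, y, z) ↦ (x, y)` -/
def p12 : (pr X (pr Y Z)).left ⟶ (pr X Y).left := (X ◁ fst Y Z).left

/-- `(x, y, z) ↦ (x, z)` -/
def p13 : (pr X (pr Y Z)).left ⟶ (pr X Z).left := (X ◁ snd Y Z).left

/-- `(x, y, z) ↦ (y, z)` -/
def p23 : (pr X (pr Y Z)).left ⟶ (pr Y Z).left := (snd X (Y ⊗ Z)).left

/-- `(x, x', y, y') ↦ (x, y)` -/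
def q13 : (pr (pr X X') (pr Y Y')).left ⟶ (pr X Y).left := (fst X X' ⊗ₘ fst Y Y').left

/-- `(x, x', y, y') ↦ (x', y')` -/
def q24 : (pr (pr X X') (pr Y Y')).left ⟶ (pr X' Y').left := (snd X X' ⊗ₘ snd Y Y').left

/-- `(x, y) ↦ (y, x)` -/
def sw : (pr X Y).left ⟶ (pr Y X).left := (lift (snd X Y) (fst X Y)).left

/-- `x ↦ (x, x)` -/
def d2 : X.left ⟶ (pr X X).left := (lift (𝟙 X) (𝟙 X)).left

/-- `x ↦ (x, x, x)` -/
def d3 : X.left ⟶ (pr (pr X X) X).left := (lift (lift (𝟙 X) (𝟙 X)) (𝟙 X)).left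

variable {X Y Z X' Y'}

/-- the class of `c` is the composition `b ∘ a = p13_* (p12^* a · p23^* b)` -/
def Comp (a : Cor X Y) (b : Cor Y Z) (c : Cor X Z) : Prop :=
  ∃ (a' b' m : Cor X (pr Y Z)) (c' : Cor X Z), Pull (p12 X Y Z) a a' ∧ Pull (p23 X Y Z) b b' ∧
    Mul a' b' m ∧ Push (p13 X Y Z) m c' ∧ Rat c c'

/-- the class of `c` is the tensor product `a ⊗ b = q13^* a · q24^* b` -/
def Tens (a : Cor X Y) (b : Cor X' Y') (c : Cor (pr X X') (pr Y Y')) : Prop :=
  ∃ a' b' : Cor (pr X X') (pr Y Y'), Pull (q13 X Y X' Y') a a' ∧ Pull (q24 X Y X' Y') b b' ∧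
    Mul a' b' c

/-- `Γ` has dimension `d`, and `Γt ∘ Γ = ΔX`, `Γ ∘ Γt = ΔY`, `Γ ∘ δX = δY ∘ (Γ ⊗ Γ)` -/
def FrobIso (d : ℕ) (Γ : Cor X Y) : Prop :=
  (∀ w, Γ w ≠ 0 → height w = d) ∧
  ∃ (Γt : Cor Y X) (ΔX : Cor X X) (ΔY : Cor Y Y) (δX : Cor (pr X X) X) (δY : Cor (pr Y Y) Y)
    (T : Cor (pr X X) (pr Y Y)) (L : Cor (pr X X) Y),
    Push (sw X Y) Γ Γt ∧ Img (d2 X) ΔX ∧ Img (d2 Y) ΔY ∧ Img (d3 X) δX ∧ Img (d3 Y) δY ∧
    Comp Γ Γt ΔX ∧ Comp Γt Γ ΔY ∧ Tens Γ Γ T ∧ Comp δX Γ L ∧ Comp T δY L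

end

end Pool.Agent.Lib.MP_d3d358_ag.Chw
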